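import Mathlib
import Pool.Agent.N720.SL.Stm

/-!
# CY/FIB: the fibres of a shell (helper415)
-/

set_option autoImplicit false

namespace Pool.Agent.N415.CYFIB

open MeasureTheory Set Metric Complex
open scoped ENNReal NNReal RealInnerProductSpace
open Pool.Agent.N720.SL

/-- the annuli for all `k ≥ 1` -/
lemma ann_all (hball : S_BALL) (hann : S_ANN) {k : ℕ} (hk : 1 ≤ k) {α β : ℝ} (hα : 0 ≤ α)
    (hβ : 0 < β) (hαβ : α - ((k : ℝ) - 1) / 2 ≤ β) : ∃ C : ℝ, 0 ≤ C ∧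
    ∀ (A : ℝ) (ν : Measure (E k)), 0 ≤ A → SFinite ν → Growth ν α A →
    ∀ δ r : ℝ, 0 < δ → δ ≤ r → r ≤ 2 → ∀ g : E k → ℂ, Measurable g → Integrable g ν →
    ∫⁻ w in {w : E k | r - δ ≤ ‖w‖ ∧ ‖w‖ ≤ r}, ‖hat ν g w‖ₑ ^ 2 ≤
      ENNReal.ofReal (C * A * (δ * r ^ ((k : ℝ) - 1 - α) * (r / δ) ^ β)) *
        ∫⁻ y, ‖g y‖ₑ ^ 2 ∂ν := by
  rcases Nat.lt_or_ge k 2 with hk2 | hk2
  · obtain rfl : k = 1 := by omega
    obtain ⟨C1, hC1, h1⟩ := hball 1 α hα
    refine ⟨C1 * 2 ^ α, by positivity, ?_⟩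
    intro A ν hA hν hG δ r hδ hδr hr g hg hgi
    have hr0 : 0 < r := lt_of_lt_of_le hδ hδr
    set c : E 1 := (r - δ / 2) • (EuclideanSpace.single 0 (1 : ℝ)) with hc
    have hnorm : ∀ w : E 1, ‖w‖ = |w 0| := by
      intro w
      rw [EuclideanSpace.norm_eq, Fin.sum_univ_one, Real.norm_eq_abs, sq_abs, Real.sqrt_sq_eq_abs]
    have hc0 : c 0 = r - δ / 2 := by simp [hc]
    have hsub : {w : E 1 | r - δ ≤ ‖w‖ ∧ ‖w‖ ≤ r} ⊆
        closedBall c (δ / 2) ∪ closedBall (-c) (δ / 2) := by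
      rintro w ⟨a1, a2⟩
      rw [hnorm] at a1 a2
      rcases le_or_gt 0 (w 0) with h0 | h0
      · left
        rw [mem_closedBall, dist_eq_norm, hnorm]
        rw [abs_of_nonneg h0] at a1 a2
        have : (w - c) 0 = w 0 - (r - δ / 2) := by rw [← hc0]; rfl
        rw [this, abs_le]
        constructor <;> linarith
      · right
        rw [mem_closedBall, dist_eq_norm, hnorm]
        rw [abs_of_neg h0] at a1 a2
        have : (w - -c) 0 = w 0 + (r - δ / 2) := by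
          rw [← hc0, sub_neg_eq_add]; rfl
        rw [this, abs_le]
        constructor <;> linarith
    have b1 := h1 A ν hA hν hG c (δ / 2) (by positivity) (by linarith) g hg hgi
    have b2 := h1 A ν hA hν hG (-c) (δ / 2) (by positivity) (by linarith) g hg hgi
    have hreal : C1 * A * (δ / 2) ^ (((1 : ℕ) : ℝ) - α) + C1 * A * (δ / 2) ^ (((1 : ℕ) : ℝ) - α) ≤
        C1 * 2 ^ α * A * (δ * r ^ (((1 : ℕ) : ℝ) - 1 - α) * (r / δ) ^ β) := by
      have e1 : (δ / 2) ^ (((1 : ℕ) : ℝ) - α) = 2 ^ α / 2 * (δ * r ^ (-α) * (r / δ) ^ α) := by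
        rw [Nat.cast_one, Real.div_rpow hδ.le (by norm_num), Real.div_rpow hr0.le hδ.le,
          Real.rpow_sub hδ, Real.rpow_sub (by norm_num : (0 : ℝ) < 2), Real.rpow_one,
          Real.rpow_one, Real.rpow_neg hr0.le]
        have h2 : r ^ α ≠ 0 := (Real.rpow_pos_of_pos hr0 _).ne'
        have h3 : δ ^ α ≠ 0 := (Real.rpow_pos_of_pos hδ _).ne'
        have h4 : (2 : ℝ) ^ α ≠ 0 := (Real.rpow_pos_of_pos (by norm_num) _).ne'
        field_simp
      have e2 : (r / δ) ^ α ≤ (r / δ) ^ β := by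
        refine Real.rpow_le_rpow_of_exponent_le ?_ ?_
        · rw [one_le_div hδ]; exact hδr
        · simpa using hαβ
      have e3 : ((1 : ℕ) : ℝ) - 1 - α = -α := by push_cast; ring
      rw [e1, e3]
      have e4 : 0 ≤ C1 * 2 ^ α * A * (δ * r ^ (-α)) := by positivity
      calc _ = C1 * 2 ^ α * A * (δ * r ^ (-α)) * (r / δ) ^ α := by ring
        _ ≤ C1 * 2 ^ α * A * (δ * r ^ (-α)) * (r / δ) ^ β := mul_le_mul_of_nonneg_left e2 e4
        _ = _ := by ring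
    have hnn : 0 ≤ C1 * A * (δ / 2) ^ (((1 : ℕ) : ℝ) - α) := by positivity
    calc ∫⁻ w in {w : E 1 | r - δ ≤ ‖w‖ ∧ ‖w‖ ≤ r}, ‖hat ν g w‖ₑ ^ 2
        ≤ ∫⁻ w in closedBall c (δ / 2) ∪ closedBall (-c) (δ / 2), ‖hat ν g w‖ₑ ^ 2 :=
          lintegral_mono_set hsub
      _ ≤ _ := lintegral_union_le _ _ _
      _ ≤ _ := add_le_add b1 b2
      _ = ENNReal.ofReal (C1 * A * (δ / 2) ^ (((1 : ℕ) : ℝ) - α) +
            C1 * A * (δ / 2) ^ (((1 : ℕ) : ℝ) - α)) * ∫⁻ y, ‖g y‖ₑ ^ 2 ∂ν := by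
          rw [ENNReal.ofReal_add hnn hnn, add_mul]
      _ ≤ _ := by
          gcongr ?_ * _
          exact ENNReal.ofReal_le_ofReal hreal
  · exact hann k hk2 α β hα hβ hαβ

/-- FIB: the fibres of a shell, with the weight -/
theorem main : S_BALL → S_ANN → S_FIB := by
  intro hball hann k hk α β θ hα hβ hαβ hθ0 hθ1
  obtain ⟨C1, hC1, h1⟩ := hball k α hα
  obtain ⟨C2, hC2, h2⟩ := ann_all hball hann hk hα hβ hαβ
  set κ := max β ((α - k + 2 - θ) / 2) with hκ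
  set e := (k : ℝ) - 2 - α + 2 * β + θ with he
  set K1 := 4 * C1 * 8 ^ (((k : ℝ) - α) / 2) with hK1
  set K2 := 2 * C2 * 4 ^ (1 - β) * (2 ^ e + 1) with hK2
  have hK1' : 0 ≤ K1 := by positivity
  have hK2' : 0 ≤ K2 := by positivity
  refine ⟨K1 + K2, by positivity, ?_⟩
  intro A ν hA hν hG δ r hδ hδ1 hr0 hr2 g hg hgi
  set I := ∫⁻ y, ‖g y‖ₑ ^ 2 ∂ν with hI
  have hsd : 0 < Real.sqrt δ := Real.sqrt_pos.2 hδ
  have hsd2 : Real.sqrt δ ^ 2 = δ := Real.sq_sqrt hδ.le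
  have kk1 : δ ^ (((k : ℝ) - α + θ) / 2) ≤ δ ^ (1 - κ) := by
    refine Real.rpow_le_rpow_of_exponent_ge hδ hδ1 ?_
    have := le_max_right β ((α - k + 2 - θ) / 2)
    rw [← hκ] at this
    linarith
  have kk2 : δ ^ (1 - β) ≤ δ ^ (1 - κ) := by
    refine Real.rpow_le_rpow_of_exponent_ge hδ hδ1 ?_
    have := le_max_left β ((α - k + 2 - θ) / 2)
    rw [← hκ] at this
    linarith
  have hmeas : MeasurableSet {w : E k | r ^ 2 - 4 * δ ≤ ‖w‖ ^ 2 ∧ ‖w‖ ^ 2 ≤ r ^ 2} := by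
    refine MeasurableSet.inter ?_ ?_
    · exact measurableSet_le measurable_const (measurable_norm.pow_const 2)
    · exact measurableSet_le (measurable_norm.pow_const 2) measurable_const
  have hwn : ∀ w ∈ {w : E k | r ^ 2 - 4 * δ ≤ ‖w‖ ^ 2 ∧ ‖w‖ ^ 2 ≤ r ^ 2}, ‖w‖ ≤ r := by
    rintro w ⟨-, hw⟩
    exact abs_le_of_sq_le_sq' hw hr0 |>.2
  -- the weight
  have hweight : ∀ (c : ℝ) (S : Set (E k)), 0 ≤ c →
      {w : E k | r ^ 2 - 4 * δ ≤ ‖w‖ ^ 2 ∧ ‖w‖ ^ 2 ≤ r ^ 2} ⊆ S →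
      (∀ w ∈ {w : E k | r ^ 2 - 4 * δ ≤ ‖w‖ ^ 2 ∧ ‖w‖ ^ 2 ≤ r ^ 2},
        (‖w‖ + Real.sqrt δ) ^ θ ≤ c) → ∀ B : ℝ, 0 ≤ B →
      ∫⁻ w in S, ‖hat ν g w‖ₑ ^ 2 ≤ ENNReal.ofReal B * I →
      c * B ≤ (K1 + K2) * A * δ ^ (1 - κ) →
      ∫⁻ w in {w : E k | r ^ 2 - 4 * δ ≤ ‖w‖ ^ 2 ∧ ‖w‖ ^ 2 ≤ r ^ 2},
        ENNReal.ofReal ((‖w‖ + Real.sqrt δ) ^ θ) * ‖hat ν g w‖ₑ ^ 2 ≤
      ENNReal.ofReal ((K1 + K2) * A * δ ^ (1 - κ)) * I := by
    intro c S hc hS hw B hB hint hcB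
    calc ∫⁻ w in {w : E k | r ^ 2 - 4 * δ ≤ ‖w‖ ^ 2 ∧ ‖w‖ ^ 2 ≤ r ^ 2},
          ENNReal.ofReal ((‖w‖ + Real.sqrt δ) ^ θ) * ‖hat ν g w‖ₑ ^ 2
        ≤ ∫⁻ w in {w : E k | r ^ 2 - 4 * δ ≤ ‖w‖ ^ 2 ∧ ‖w‖ ^ 2 ≤ r ^ 2},
          ENNReal.ofReal c * ‖hat ν g w‖ₑ ^ 2 := by
          refine setLIntegral_mono' hmeas fun w hwS => ?_
          gcongr ?_ * _
          exact ENNReal.ofReal_le_ofReal (hw w hwS)
      _ = ENNReal.ofReal c * ∫⁻ w in {w : E k | r ^ 2 - 4 * δ ≤ ‖w‖ ^ 2 ∧ ‖w‖ ^ 2 ≤ r ^ 2},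
          ‖hat ν g w‖ₑ ^ 2 := lintegral_const_mul' _ _ ENNReal.ofReal_ne_top
      _ ≤ ENNReal.ofReal c * (ENNReal.ofReal B * I) := by
          gcongr _ * ?_
          exact (lintegral_mono_set hS).trans hint
      _ = ENNReal.ofReal (c * B) * I := by rw [← mul_assoc, ← ENNReal.ofReal_mul hc]
      _ ≤ _ := by
          gcongr ?_ * _
          exact ENNReal.ofReal_le_ofReal hcB
  rcases le_or_gt (r ^ 2) (8 * δ) with hcase | hcase
  · -- small radius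
    set l := Real.sqrt (8 * δ) with hl
    have hl0 : 0 < l := Real.sqrt_pos.2 (by positivity)
    have hl2 : l ^ 2 = 8 * δ := Real.sq_sqrt (by positivity)
    have hrl : r ≤ l := abs_le_of_sq_le_sq' (by rw [hl2]; exact hcase) hl0.le |>.2
    have hl3 : l ≤ 3 * Real.sqrt δ := by
      refine abs_le_of_sq_le_sq' ?_ (by positivity) |>.2
      rw [mul_pow, hsd2, hl2]
      linarith
    have hsd1 : Real.sqrt δ ≤ 1 := Real.sqrt_le_one.2 hδ1
    have hw : ∀ w ∈ {w : E k | r ^ 2 - 4 * δ ≤ ‖w‖ ^ 2 ∧ ‖w‖ ^ 2 ≤ r ^ 2},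
        (‖w‖ + Real.sqrt δ) ^ θ ≤ 4 * δ ^ (θ / 2) := by
      intro w hwS
      have a1 := hwn w hwS
      calc (‖w‖ + Real.sqrt δ) ^ θ ≤ (4 * Real.sqrt δ) ^ θ :=
            Real.rpow_le_rpow (by positivity) (by linarith) hθ0
        _ = 4 ^ θ * Real.sqrt δ ^ θ := Real.mul_rpow (by norm_num) hsd.le
        _ ≤ 4 ^ (1 : ℝ) * Real.sqrt δ ^ θ := mul_le_mul_of_nonneg_right
            (Real.rpow_le_rpow_of_exponent_le (by norm_num) hθ1) (by positivity)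
        _ = 4 * δ ^ (θ / 2) := by
            rw [Real.rpow_one, Real.sqrt_eq_rpow, ← Real.rpow_mul hδ.le]
            congr 2
            ring
    refine hweight (4 * δ ^ (θ / 2)) (closedBall 0 l) (by positivity) ?_ hw
      (C1 * A * l ^ ((k : ℝ) - α)) (by positivity)
      (h1 A ν hA hν hG 0 l hl0 (by linarith) g hg hgi) ?_
    · intro w hwS
      rw [mem_closedBall, dist_zero_right]
      exact (hwn w hwS).trans hrl
    · have e1 : l ^ ((k : ℝ) - α) = 8 ^ (((k : ℝ) - α) / 2) * δ ^ (((k : ℝ) - α) / 2) := by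
        rw [hl, Real.sqrt_eq_rpow, ← Real.rpow_mul (by positivity),
          ← Real.mul_rpow (by norm_num) hδ.le]
        congr 1
        ring
      have e2 : δ ^ (((k : ℝ) - α + θ) / 2) = δ ^ (θ / 2) * δ ^ (((k : ℝ) - α) / 2) := by
        rw [← Real.rpow_add hδ]
        congr 1
        ring
      calc 4 * δ ^ (θ / 2) * (C1 * A * l ^ ((k : ℝ) - α))
          = K1 * A * δ ^ (((k : ℝ) - α + θ) / 2) := by rw [e1, e2, hK1]; ring
        _ ≤ K1 * A * δ ^ (1 - κ) := by gcongr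
        _ ≤ (K1 + K2) * A * δ ^ (1 - κ) := by
            gcongr
            linarith
  · -- large radius
    have hrpos : 0 < r := by
      rcases eq_or_lt_of_le hr0 with h | h
      · exfalso
        rw [← h] at hcase
        nlinarith
      · exact h
    set d := 4 * δ / r with hd
    have hd0 : 0 < d := by positivity
    have hdr : d * r = 4 * δ := by rw [hd]; field_simp
    have hd2 : d ≤ r / 2 := by
      rw [hd, div_le_iff₀ hrpos]
      nlinarith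
    have hsr : Real.sqrt δ ≤ r := by
      refine abs_le_of_sq_le_sq' ?_ hr0 |>.2
      rw [hsd2]
      nlinarith
    have hw : ∀ w ∈ {w : E k | r ^ 2 - 4 * δ ≤ ‖w‖ ^ 2 ∧ ‖w‖ ^ 2 ≤ r ^ 2},
        (‖w‖ + Real.sqrt δ) ^ θ ≤ 2 * r ^ θ := by
      intro w hwS
      have a1 := hwn w hwS
      calc (‖w‖ + Real.sqrt δ) ^ θ ≤ (2 * r) ^ θ :=
            Real.rpow_le_rpow (by positivity) (by linarith) hθ0
        _ = 2 ^ θ * r ^ θ := Real.mul_rpow (by norm_num) hr0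
        _ ≤ 2 ^ (1 : ℝ) * r ^ θ := mul_le_mul_of_nonneg_right
            (Real.rpow_le_rpow_of_exponent_le (by norm_num) hθ1) (by positivity)
        _ = 2 * r ^ θ := by rw [Real.rpow_one]
    refine hweight (2 * r ^ θ) {w : E k | r - d ≤ ‖w‖ ∧ ‖w‖ ≤ r} (by positivity) ?_ hw
      (C2 * A * (d * r ^ ((k : ℝ) - 1 - α) * (r / d) ^ β)) (by positivity)
      (h2 A ν hA hν hG d r hd0 (by linarith) hr2 g hg hgi) ?_
    · intro w hwS
      refine ⟨?_, hwn w hwS⟩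
      have hsq : (r - d) ^ 2 ≤ ‖w‖ ^ 2 := by
        have h3 := hwS.1
        have h4 : d ^ 2 ≤ 2 * δ := by nlinarith
        nlinarith
      exact abs_le_of_sq_le_sq' hsq (norm_nonneg _) |>.2
    · have e1 : d * r ^ ((k : ℝ) - 1 - α) * (r / d) ^ β * r ^ θ =
          4 ^ (1 - β) * δ ^ (1 - β) * r ^ e := by
        have f1 : r / d = r * r / (4 * δ) := by
          rw [hd]; field_simp
        have f2 : d = (4 * δ) * r ^ (-1 : ℝ) := by
          rw [hd, Real.rpow_neg hr0, Real.rpow_one]; rfl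
        have f3 : (4 * δ) ^ (1 - β) = 4 ^ (1 - β) * δ ^ (1 - β) :=
          Real.mul_rpow (by norm_num) hδ.le
        have f4 : (4 * δ) ^ (1 - β) = (4 * δ) / (4 * δ) ^ β := by
          rw [Real.rpow_sub (by positivity), Real.rpow_one]
        have f5 : r ^ e = r ^ (-1 : ℝ) * r ^ ((k : ℝ) - 1 - α) * (r ^ β * r ^ β) * r ^ θ := by
          rw [← Real.rpow_add hrpos, ← Real.rpow_add hrpos, ← Real.rpow_add hrpos,
            ← Real.rpow_add hrpos]
          congr 1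
          rw [he]
          ring
        rw [f1, Real.div_rpow (by positivity) (by positivity), Real.mul_rpow hr0 hr0, f2, ← f3,
          f4, f5]
        ring
      have e2 : δ ^ (1 - β) * r ^ e ≤ (2 ^ e + 1) * δ ^ (1 - κ) := by
        rcases le_or_gt 0 e with he0 | he0
        · have g1 : r ^ e ≤ 2 ^ e := Real.rpow_le_rpow hr0 hr2 he0
          calc δ ^ (1 - β) * r ^ e ≤ δ ^ (1 - κ) * 2 ^ e := by gcongr
            _ ≤ (2 ^ e + 1) * δ ^ (1 - κ) := by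
                have : 0 < δ ^ (1 - κ) := Real.rpow_pos_of_pos hδ _
                nlinarith
        · have g0 : Real.sqrt (8 * δ) ≤ r := by
            refine abs_le_of_sq_le_sq' ?_ hr0 |>.2
            rw [Real.sq_sqrt (by positivity)]
            exact hcase.le
          have g1 : r ^ e ≤ Real.sqrt (8 * δ) ^ e :=
            Real.rpow_le_rpow_of_nonpos (Real.sqrt_pos.2 (by positivity)) g0 he0.le
          have g2 : Real.sqrt (8 * δ) ^ e = 8 ^ (e / 2) * δ ^ (e / 2) := by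
            rw [Real.sqrt_eq_rpow, ← Real.rpow_mul (by positivity),
              ← Real.mul_rpow (by norm_num) hδ.le]
            congr 1
            ring
          have g3 : (8 : ℝ) ^ (e / 2) ≤ 1 :=
            Real.rpow_le_one_of_one_le_of_nonpos (by norm_num) (by linarith)
          have g4 : δ ^ (1 - β) * δ ^ (e / 2) = δ ^ (((k : ℝ) - α + θ) / 2) := by
            rw [← Real.rpow_add hδ]
            congr 1
            rw [he]
            ring
          have g5 : 0 < δ ^ (e / 2) := Real.rpow_pos_of_pos hδ _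
          have g6 : 0 < δ ^ (1 - β) := Real.rpow_pos_of_pos hδ _
          have g7 : 0 < δ ^ (1 - κ) := Real.rpow_pos_of_pos hδ _
          have g8 : 0 < (2 : ℝ) ^ e := Real.rpow_pos_of_pos (by norm_num) _
          calc δ ^ (1 - β) * r ^ e ≤ δ ^ (1 - β) * (1 * δ ^ (e / 2)) := by
                rw [g2] at g1
                refine mul_le_mul_of_nonneg_left (g1.trans ?_) g6.le
                exact mul_le_mul_of_nonneg_right g3 g5.le
            _ = δ ^ (((k : ℝ) - α + θ) / 2) := by rw [one_mul, g4]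
            _ ≤ 1 * δ ^ (1 - κ) := by rw [one_mul]; exact kk1
            _ ≤ (2 ^ e + 1) * δ ^ (1 - κ) := by gcongr; linarith
      calc 2 * r ^ θ * (C2 * A * (d * r ^ ((k : ℝ) - 1 - α) * (r / d) ^ β))
          = 2 * C2 * A * (d * r ^ ((k : ℝ) - 1 - α) * (r / d) ^ β * r ^ θ) := by ring
        _ = 2 * C2 * 4 ^ (1 - β) * A * (δ ^ (1 - β) * r ^ e) := by rw [e1]; ring
        _ ≤ 2 * C2 * 4 ^ (1 - β) * A * ((2 ^ e + 1) * δ ^ (1 - κ)) := by gcongr
        _ = K2 * A * δ ^ (1 - κ) := by rw [hK2]; ring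
        _ ≤ (K1 + K2) * A * δ ^ (1 - κ) := by
            gcongr
            linarith

end Pool.Agent.N415.CYFIB
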