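import Mathlib
import Pool.Agent.N720.SL.Stm

/-!
# CY/WS: from the weak type to the strong type (helper415)
-/

set_option autoImplicit false

namespace Pool.Agent.N415.CYWS

open MeasureTheory Set Metric Complex
open scoped ENNReal NNReal RealInnerProductSpace
open Pool.Agent.N720.SL

theorem main : S_WS := by
  intro p q hp hpq
  have hq : 0 < q := hp.trans hpq
  have hqp : 0 < q - p := by linarith
  refine ⟨⟨q / (q - p), by positivity⟩, ?_⟩
  intro Ω _ μ h A M hh hM hw
  have hfin : ∀ x, h x ≠ ∞ := fun x => ((hM x).trans_lt ENNReal.coe_lt_top).ne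
  have e1 : ∀ x, h x ^ q = ENNReal.ofReal ((h x).toReal ^ q) := fun x => by
    rw [ENNReal.toReal_rpow, ENNReal.ofReal_toReal]
    exact ENNReal.rpow_ne_top_of_nonneg hq.le (hfin x)
  have hM0 : (0 : ℝ) ≤ M := M.coe_nonneg
  have hA0 : (0 : ℝ) ≤ A := A.coe_nonneg
  -- the pointwise bound
  have key : ∀ t ∈ Ioi (0 : ℝ), μ {x | t < (h x).toReal} * ENNReal.ofReal (t ^ (q - 1)) ≤
      (Ioc (0 : ℝ) M).indicator (fun t => ENNReal.ofReal ((A : ℝ) * (M : ℝ) ^ p *
        t ^ (q - p - 1))) t := by
    intro t ht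
    have ht0 : (0 : ℝ) < t := ht
    by_cases htM : t ≤ M
    · rw [indicator_of_mem (show t ∈ Ioc (0 : ℝ) M from ⟨ht0, htM⟩)]
      have hset : {x | t < (h x).toReal} = {x | ENNReal.ofReal t < h x} := by
        ext x
        simp only [mem_ofPred_eq]
        rw [ENNReal.ofReal_lt_iff_lt_toReal ht0.le (hfin x)]
      rw [hset]
      have e2 : (A : ℝ≥0∞) * (M : ℝ≥0∞) ^ p / ENNReal.ofReal t ^ p =
          ENNReal.ofReal ((A : ℝ) * (M : ℝ) ^ p / t ^ p) := by
        rw [ENNReal.ofReal_div_of_pos (Real.rpow_pos_of_pos ht0 p), ENNReal.ofReal_mul hA0,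
          ENNReal.ofReal_coe_nnreal, ENNReal.ofReal_rpow_of_pos ht0,
          ← ENNReal.ofReal_rpow_of_nonneg hM0 hp.le, ENNReal.ofReal_coe_nnreal]
      calc μ {x | ENNReal.ofReal t < h x} * ENNReal.ofReal (t ^ (q - 1))
          ≤ ENNReal.ofReal ((A : ℝ) * (M : ℝ) ^ p / t ^ p) * ENNReal.ofReal (t ^ (q - 1)) := by
            rw [← e2]
            exact mul_le_mul_left (hw t ht0) _
        _ = ENNReal.ofReal ((A : ℝ) * (M : ℝ) ^ p * t ^ (q - p - 1)) := by
            rw [← ENNReal.ofReal_mul (by positivity)]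
            congr 1
            have e3 : t ^ (q - p - 1) = t ^ (q - 1) / t ^ p := by
              rw [← Real.rpow_sub ht0]
              congr 1
              ring
            rw [e3]
            ring
    · rw [indicator_of_notMem (fun h => htM h.2)]
      have hempty : {x | t < (h x).toReal} = ∅ := by
        ext x
        simp only [mem_ofPred_eq, mem_empty_iff_false, iff_false, not_lt]
        have h1 : (h x).toReal ≤ (M : ℝ) := ENNReal.toReal_le_coe_of_le_coe (hM x)
        linarith
      rw [hempty, measure_empty, zero_mul]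
  have hr : -1 < q - p - 1 := by linarith
  have hint : IntervalIntegrable (fun t : ℝ => (A : ℝ) * (M : ℝ) ^ p * t ^ (q - p - 1)) volume 0 M :=
    (intervalIntegral.intervalIntegrable_rpow' hr).const_mul _
  calc ∫⁻ x, h x ^ q ∂μ = ∫⁻ x, ENNReal.ofReal ((h x).toReal ^ q) ∂μ := lintegral_congr e1
    _ = ENNReal.ofReal q * ∫⁻ t in Ioi 0, μ {x | t < (h x).toReal} * ENNReal.ofReal (t ^ (q - 1)) :=
        lintegral_rpow_eq_lintegral_meas_lt_mul μ (Filter.Eventually.of_forall fun x =>
          ENNReal.toReal_nonneg) hh.ennreal_toReal.aemeasurable hq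
    _ ≤ ENNReal.ofReal q * ∫⁻ t in Ioi 0, (Ioc (0 : ℝ) M).indicator
          (fun t => ENNReal.ofReal ((A : ℝ) * (M : ℝ) ^ p * t ^ (q - p - 1))) t := by
        gcongr ENNReal.ofReal q * ?_
        exact setLIntegral_mono' measurableSet_Ioi key
    _ ≤ ENNReal.ofReal q * ∫⁻ t in Ioc (0 : ℝ) M,
          ENNReal.ofReal ((A : ℝ) * (M : ℝ) ^ p * t ^ (q - p - 1)) := by
        gcongr ENNReal.ofReal q * ?_
        rw [← lintegral_indicator measurableSet_Ioc]
        exact setLIntegral_le_lintegral _ _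
    _ = ENNReal.ofReal q * ENNReal.ofReal (∫ t in Ioc (0 : ℝ) M,
          (A : ℝ) * (M : ℝ) ^ p * t ^ (q - p - 1)) := by
        congr 1
        rw [ofReal_integral_eq_lintegral_ofReal
          ((intervalIntegrable_iff_integrableOn_Ioc_of_le hM0).1 hint)]
        refine (ae_restrict_mem measurableSet_Ioc).mono fun t ht => ?_
        have ht0 := ht.1
        show (0 : ℝ) ≤ (A : ℝ) * (M : ℝ) ^ p * t ^ (q - p - 1)
        positivity
    _ = ENNReal.ofReal q * ENNReal.ofReal ((A : ℝ) * (M : ℝ) ^ q / (q - p)) := by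
        congr 2
        rw [← intervalIntegral.integral_of_le hM0, intervalIntegral.integral_const_mul,
          integral_rpow (Or.inl hr), sub_add_cancel, Real.zero_rpow hqp.ne', sub_zero]
        rcases eq_or_lt_of_le hM0 with h0 | h0
        · rw [← h0, Real.zero_rpow hqp.ne', Real.zero_rpow hq.ne']
          ring
        · have e4 : (M : ℝ) ^ q = (M : ℝ) ^ p * (M : ℝ) ^ (q - p) := by
            rw [← Real.rpow_add h0]
            congr 1
            ring
          rw [e4]
          ring
    _ = _ := by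
        rw [← ENNReal.ofReal_mul hq.le]
        have e5 : q * ((A : ℝ) * (M : ℝ) ^ q / (q - p)) = (q / (q - p)) * A * (M : ℝ) ^ q := by
          ring
        rw [e5, ENNReal.ofReal_mul (by positivity), ENNReal.ofReal_mul (by positivity),
          ENNReal.ofReal_coe_nnreal, ← ENNReal.ofReal_rpow_of_nonneg hM0 hq.le,
          ENNReal.ofReal_coe_nnreal]
        congr 2
        rw [← ENNReal.ofReal_coe_nnreal]
        rfl

end Pool.Agent.N415.CYWS
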